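import Pool.Agent.W852.HV.Stms

/-! Bisectors in the upper half plane in the coordinates `x = re z`, `s = re z ^ 2 + im z ^ 2`;
the tasks HV-TRIP, HV-ADJ and HV-CELL. -/

set_option autoImplicit false

open MeasureTheory ProbabilityTheory Set Metric
open scoped UpperHalfPlane ENNReal

namespace Pool.Agent.W22.HV

open HypVoronoi

/-- the coordinate `s` -/
noncomputable def nz (z : ℍ) : ℝ := z.re ^ 2 + z.im ^ 2

/-- the linear function -/
noncomputable def Lf (p : ℍ) (x s : ℝ) : ℝ :=
  s * (1 / p.im) - 2 * x * (p.re / p.im) + nz p / p.im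

lemma cosh_eq (z p : ℍ) : Real.cosh (dist z p) = Lf p z.re (nz z) / (2 * z.im) := by
  have h1 := z.im_pos
  have h2 := p.im_pos
  rw [UpperHalfPlane.cosh_dist', Lf, nz, nz]
  field_simp
  ring

lemma dist_le_iff (z p q : ℍ) :
    dist z p ≤ dist z q ↔ Lf p z.re (nz z) ≤ Lf q z.re (nz z) := by
  have h1 := z.im_pos
  have h2 : Real.cosh (dist z p) ≤ Real.cosh (dist z q) ↔ dist z p ≤ dist z q := by
    rw [Real.cosh_le_cosh, abs_of_nonneg dist_nonneg, abs_of_nonneg dist_nonneg]
  rw [← h2, cosh_eq, cosh_eq, div_le_div_iff_of_pos_right (by positivity)]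

lemma dist_eq_iff (z p q : ℍ) :
    dist z p = dist z q ↔ Lf p z.re (nz z) = Lf q z.re (nz z) := by
  rw [le_antisymm_iff, le_antisymm_iff, dist_le_iff, dist_le_iff]

lemma pos_iff (z : ℍ) : 0 < nz z - z.re ^ 2 := by
  have := z.im_pos
  unfold nz
  have : 0 < z.im ^ 2 := by positivity
  linarith

/-- the point with given coordinates -/
noncomputable def pt (x s : ℝ) (h : 0 < s - x ^ 2) : ℍ :=
  ⟨⟨x, Real.sqrt (s - x ^ 2)⟩, Real.sqrt_pos.2 h⟩

lemma pt_re (x s : ℝ) (h : 0 < s - x ^ 2) : (pt x s h).re = x := rfl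

lemma pt_im (x s : ℝ) (h : 0 < s - x ^ 2) : (pt x s h).im = Real.sqrt (s - x ^ 2) := rfl

lemma pt_nz (x s : ℝ) (h : 0 < s - x ^ 2) : nz (pt x s h) = s := by
  unfold nz
  rw [pt_re, pt_im, Real.sq_sqrt h.le]
  ring

lemma ext' {z w : ℍ} (h1 : z.re = w.re) (h2 : nz z = nz w) : z = w := by
  have h3 : z.im ^ 2 = w.im ^ 2 := by
    unfold nz at h2
    rw [h1] at h2
    linarith
  have h4 : z.im = w.im := by
    have := z.im_pos
    have := w.im_pos
    exact (pow_left_inj₀ (by linarith) (by linarith) two_ne_zero).1 h3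
  exact UpperHalfPlane.ext (Complex.ext h1 h4)

lemma pt_self (z : ℍ) : pt z.re (nz z) (pos_iff z) = z := ext' (pt_re _ _ _) (pt_nz _ _ _)

/-! ### cells are connected -/

theorem t_cell : TaskCell := by
  intro P p hp
  refine isPreconnected_of_forall p ?_
  intro b hb
  have hpos : ∀ t : Icc (0 : ℝ) 1, 0 < ((1 - (t : ℝ)) * nz p + t * nz b) -
      ((1 - (t : ℝ)) * p.re + t * b.re) ^ 2 := by
    rintro ⟨t, ht0, ht1⟩
    have h1 := p.im_pos
    have h2 := b.im_pos
    have e : ((1 - t) * nz p + t * nz b) - ((1 - t) * p.re + t * b.re) ^ 2 =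
        (1 - t) * p.im ^ 2 + t * b.im ^ 2 + t * (1 - t) * (p.re - b.re) ^ 2 := by
      unfold nz; ring
    change 0 < ((1 - t) * nz p + t * nz b) - ((1 - t) * p.re + t * b.re) ^ 2
    rw [e]
    have h3 : 0 ≤ t * (1 - t) * (p.re - b.re) ^ 2 :=
      mul_nonneg (mul_nonneg ht0 (by linarith)) (sq_nonneg _)
    rcases ht0.eq_or_lt with h0 | h0
    · rw [← h0]
      have : 0 < p.im ^ 2 := by positivity
      linarith
    · have h4 : 0 < t * b.im ^ 2 := by positivity
      have h5 : 0 ≤ (1 - t) * p.im ^ 2 := mul_nonneg (by linarith) (sq_nonneg _)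
      linarith
  let c : Icc (0 : ℝ) 1 → ℍ := fun t =>
    pt ((1 - (t : ℝ)) * p.re + t * b.re) ((1 - (t : ℝ)) * nz p + t * nz b) (hpos t)
  have hc : Continuous c := by
    have h1 : Continuous (fun t : Icc (0 : ℝ) 1 =>
        ((⟨(1 - (t : ℝ)) * p.re + t * b.re,
          Real.sqrt (((1 - (t : ℝ)) * nz p + t * nz b) -
            ((1 - (t : ℝ)) * p.re + t * b.re) ^ 2)⟩ : ℂ))) := by
      exact Complex.equivRealProdCLM.symm.continuous.comp
        (Continuous.prodMk (by fun_prop) (by fun_prop))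
    exact h1.upperHalfPlaneMk _
  have : PreconnectedSpace (Icc (0 : ℝ) 1) :=
    isPreconnected_iff_preconnectedSpace.1 isPreconnected_Icc
  refine ⟨Set.range c, ?_, ⟨⟨0, by simp⟩, ?_⟩, ⟨⟨1, by simp⟩, ?_⟩, isPreconnected_range hc⟩
  · rintro _ ⟨t, rfl⟩ q hq
    rw [dist_le_iff]
    have hre : (c t).re = (1 - (t : ℝ)) * p.re + t * b.re := pt_re _ _ _
    have hnz : nz (c t) = (1 - (t : ℝ)) * nz p + t * nz b := pt_nz _ _ _
    rw [hre, hnz]
    have h1 : Lf p p.re (nz p) ≤ Lf q p.re (nz p) :=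
      (dist_le_iff p p q).1 (by rw [dist_self]; exact dist_nonneg)
    have h2 : Lf p b.re (nz b) ≤ Lf q b.re (nz b) := (dist_le_iff b p q).1 (hb q hq)
    have haff : ∀ r : ℍ, Lf r ((1 - (t : ℝ)) * p.re + t * b.re) ((1 - (t : ℝ)) * nz p + t * nz b) =
        (1 - (t : ℝ)) * Lf r p.re (nz p) + t * Lf r b.re (nz b) := by
      intro r
      unfold Lf
      ring
    rw [haff, haff]
    exact add_le_add (mul_le_mul_of_nonneg_left h1 (by linarith [t.2.2]))
      (mul_le_mul_of_nonneg_left h2 t.2.1)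
  · apply ext'
    · exact (pt_re _ _ _).trans (by simp)
    · exact (pt_nz _ _ _).trans (by simp)
  · apply ext'
    · exact (pt_re _ _ _).trans (by simp)
    · exact (pt_nz _ _ _).trans (by simp)

/-! ### circumcentres -/

lemma locFin_countable {P : Set ℍ} (hP : LocFin P) : P.Countable := by
  have h : P = ⋃ n : ℕ, P ∩ closedBall UpperHalfPlane.I n := by
    ext z
    simp only [mem_iUnion, mem_inter_iff, mem_closedBall]
    constructor
    · intro hz
      obtain ⟨n, hn⟩ := exists_nat_ge (dist z UpperHalfPlane.I)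
      exact ⟨n, hz, hn⟩
    · rintro ⟨n, hz, -⟩
      exact hz
  rw [h]
  exact countable_iUnion fun n => (hP _ (isCompact_closedBall _ _)).countable

/-- the difference of the linear functions -/
lemma Lf_sub (p q : ℍ) (x s : ℝ) (h : Lf p x s = Lf q x s) :
    (1 / p.im - 1 / q.im) * s - 2 * (p.re / p.im - q.re / q.im) * x +
      (nz p / p.im - nz q / q.im) = 0 := by
  unfold Lf at h
  linarith

/-- a vector orthogonal to two independent vectors is a multiple of their cross product -/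
lemma parallel {x s x' s' α β γ : ℝ} (hne : x ≠ x' ∨ s ≠ s')
    (h : α * s - 2 * β * x + γ = 0) (h' : α * s' - 2 * β * x' + γ = 0) :
    ∃ l : ℝ, α = l * (2 * (x' - x)) ∧ β = l * (s' - s) ∧ γ = l * (2 * (x * s' - x' * s)) := by
  have h1 : α * (s' - s) = 2 * β * (x' - x) := by linarith
  by_cases hx : x = x'
  · subst hx
    have hs : s' - s ≠ 0 := by
      rcases hne with h2 | h2
      · exact absurd rfl h2
      · exact sub_ne_zero.2 h2.symm
    have hα : α = 0 := by
      have : α * (s' - s) = 0 := by rw [h1]; ring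
      exact (mul_eq_zero.1 this).resolve_right hs
    refine ⟨β / (s' - s), ?_, ?_, ?_⟩
    · rw [hα]; ring
    · field_simp
    · rw [hα] at h
      have : γ = 2 * β * x := by linarith
      rw [this]
      field_simp
  · have hx' : x' - x ≠ 0 := sub_ne_zero.2 (Ne.symm hx)
    refine ⟨α / (2 * (x' - x)), ?_, ?_, ?_⟩
    · field_simp
    · field_simp
      linarith
    · have hγ : γ = 2 * β * x - α * s := by linarith
      rw [hγ]
      field_simp
      linear_combination (-x) * h1

lemma no_line {v1 v2 v3 n1 n2 n3 l1 l2 : ℝ} (hv1 : 0 < v1) (hv : v1 * v3 - v2 ^ 2 = 1)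
    (h1 : (v1 + l1 * n1) * (v3 + l1 * n3) - (v2 + l1 * n2) ^ 2 = 1)
    (h2 : (v1 - l2 * n1) * (v3 - l2 * n3) - (v2 - l2 * n2) ^ 2 = 1)
    (hl1 : l1 ≠ 0) (hl2 : l2 ≠ 0) (hl : l1 + l2 ≠ 0) : n1 = 0 ∧ n2 = 0 ∧ n3 = 0 := by
  set B : ℝ := v1 * n3 + v3 * n1 - 2 * v2 * n2 with hB
  set Q : ℝ := n1 * n3 - n2 ^ 2 with hQ
  have e1 : B + l1 * Q = 0 := by
    have : l1 * (B + l1 * Q) = 0 := by rw [hB, hQ]; linear_combination h1 - hv
    exact (mul_eq_zero.1 this).resolve_left hl1
  have e2 : B - l2 * Q = 0 := by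
    have : l2 * (B - l2 * Q) = 0 := by rw [hB, hQ]; linear_combination hv - h2
    exact (mul_eq_zero.1 this).resolve_left hl2
  have e3 : Q = 0 := by
    have : (l1 + l2) * Q = 0 := by linarith
    exact (mul_eq_zero.1 this).resolve_left hl
  have e4 : B = 0 := by rw [e3] at e1; linarith
  have hn13 : n1 * n3 = n2 ^ 2 := by rw [hQ] at e3; linarith
  have hv13 : v1 * v3 = 1 + v2 ^ 2 := by linarith
  have hv3 : 0 < v3 := by
    by_contra hcon
    push Not at hcon
    nlinarith [sq_nonneg v2]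
  have h5 : v1 * n3 + v3 * n1 = 2 * v2 * n2 := by rw [hB] at e4; linarith
  have h6 : (v1 * n3 - v3 * n1) ^ 2 + 4 * n2 ^ 2 = 0 := by
    have : (v1 * n3 - v3 * n1) ^ 2 = (v1 * n3 + v3 * n1) ^ 2 - 4 * (v1 * v3) * (n1 * n3) := by ring
    rw [this, h5, hv13, hn13]
    ring
  have h7 : n2 = 0 := by
    have : n2 ^ 2 = 0 := by nlinarith [sq_nonneg (v1 * n3 - v3 * n1), sq_nonneg n2]
    exact pow_eq_zero_iff two_ne_zero |>.1 this
  rw [h7] at h5 h6 hn13
  have h8 : v1 * n3 = v3 * n1 := by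
    have : (v1 * n3 - v3 * n1) ^ 2 = 0 := by nlinarith
    have := pow_eq_zero_iff two_ne_zero |>.1 this
    linarith
  have h9 : v3 * n1 = 0 := by linarith
  have h10 : n1 = 0 := (mul_eq_zero.1 h9).resolve_left hv3.ne'
  have h11 : v1 * n3 = 0 := by linarith
  exact ⟨h10, h7, (mul_eq_zero.1 h11).resolve_left hv1.ne'⟩

lemma QV (p : ℍ) : 1 / p.im * (nz p / p.im) - (p.re / p.im) ^ 2 = 1 := by
  have := p.im_pos
  unfold nz
  field_simp
  ring

lemma V_inj {p q : ℍ} (h1 : 1 / p.im - 1 / q.im = 0) (h2 : p.re / p.im - q.re / q.im = 0) :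
    p = q := by
  have hp := p.im_pos
  have hq := q.im_pos
  have h3 : p.im = q.im := by
    have : 1 / p.im = 1 / q.im := by linarith
    field_simp at this
    exact this.symm
  have h4 : p.re = q.re := by
    rw [h3] at h2
    field_simp at h2
    linarith
  exact UpperHalfPlane.ext (Complex.ext h4 h3)

theorem t_trip : TaskTrip := by
  intro P hP
  have hc := locFin_countable hP
  have hsub : trip P ⊆ ⋃ p ∈ P, ⋃ q ∈ P, ⋃ r ∈ P,
      {z : ℍ | p ≠ q ∧ p ≠ r ∧ q ≠ r ∧ dist z p = dist z q ∧ dist z q = dist z r} := by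
    rintro z ⟨p, hp, q, hq, r, hr, h⟩
    simp only [mem_iUnion, mem_ofPred_eq, exists_prop]
    exact ⟨p, hp, q, hq, r, hr, h⟩
  refine Set.Countable.mono hsub ?_
  refine hc.biUnion fun p _ => hc.biUnion fun q _ => hc.biUnion fun r _ => ?_
  refine Set.Subsingleton.countable ?_
  rintro z ⟨hpq, hpr, hqr, h1, h2⟩ z' ⟨-, -, -, h1', h2'⟩
  by_contra hne
  have hne' : z.re ≠ z'.re ∨ nz z ≠ nz z' := by
    by_contra hcon
    push Not at hcon
    exact hne (ext' hcon.1 hcon.2)
  obtain ⟨l1, a1, b1, c1⟩ := parallel hne' (Lf_sub p q _ _ ((dist_eq_iff z p q).1 h1))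
    (Lf_sub p q _ _ ((dist_eq_iff z' p q).1 h1'))
  obtain ⟨l2, a2, b2, c2⟩ := parallel hne' (Lf_sub q r _ _ ((dist_eq_iff z q r).1 h2))
    (Lf_sub q r _ _ ((dist_eq_iff z' q r).1 h2'))
  have hl1 : l1 ≠ 0 := by
    rintro rfl
    exact hpq (V_inj (by rw [a1]; ring) (by rw [b1]; ring))
  have hl2 : l2 ≠ 0 := by
    rintro rfl
    exact hqr (V_inj (by rw [a2]; ring) (by rw [b2]; ring))
  have hl : l1 + l2 ≠ 0 := by
    intro h0
    refine hpr (V_inj ?_ ?_)
    · have : 1 / p.im - 1 / r.im = (l1 + l2) * (2 * (z'.re - z.re)) := by linarith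
      rw [this, h0, zero_mul]
    · have : p.re / p.im - r.re / r.im = (l1 + l2) * (nz z' - nz z) := by linarith
      rw [this, h0, zero_mul]
  have hq := QV q
  have hp := QV p
  have hr := QV r
  have e1 : 1 / p.im = 1 / q.im + l1 * (2 * (z'.re - z.re)) := by linarith
  have e2 : p.re / p.im = q.re / q.im + l1 * (nz z' - nz z) := by linarith
  have e3 : nz p / p.im = nz q / q.im + l1 * (2 * (z.re * nz z' - z'.re * nz z)) := by linarith
  have f1 : 1 / r.im = 1 / q.im - l2 * (2 * (z'.re - z.re)) := by linarith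
  have f2 : r.re / r.im = q.re / q.im - l2 * (nz z' - nz z) := by linarith
  have f3 : nz r / r.im = nz q / q.im - l2 * (2 * (z.re * nz z' - z'.re * nz z)) := by linarith
  rw [e1, e2, e3] at hp
  rw [f1, f2, f3] at hr
  obtain ⟨g1, g2, -⟩ := no_line (one_div_pos.2 q.im_pos) hq hp hr hl1 hl2 hl
  rcases hne' with h | h
  · exact h (by linarith)
  · exact h (by linarith)

/-! ### cells which meet outside the circumcentres -/

theorem t_adj (hconv : TaskConv) : TaskAdj := by
  intro P hP p q hpq z hzp hzq hz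
  have hpq' : (p : ℍ) ≠ q := fun h => hpq (Subtype.ext h)
  have hdpq : dist z p = dist z q := le_antisymm (hzp q q.2) (hzq p p.2)
  -- a gap
  obtain ⟨e, he, hgap⟩ : ∃ e : ℝ, 0 < e ∧ ∀ r ∈ P, r ≠ p → r ≠ q → dist z p + 4 * e ≤ dist z r := by
    set F : Set ℍ := (P ∩ closedBall z (dist z p + 1)) \ {(p : ℍ), (q : ℍ)} with hF
    have hFf : F.Finite := (hP _ (isCompact_closedBall _ _)).subset sdiff_subset
    have hlt : ∀ r ∈ F, dist z p < dist z r := by
      rintro r ⟨⟨hr, -⟩, hr2⟩
      simp only [mem_insert_iff, mem_singleton_iff, not_or] at hr2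
      refine lt_of_le_of_ne (hzp r hr) fun h => hz ?_
      exact ⟨p, p.2, q, q.2, r, hr, hpq', fun h' => hr2.1 h'.symm, fun h' => hr2.2 h'.symm, hdpq,
        by rw [← hdpq, h]⟩
    obtain ⟨e, he, h⟩ : ∃ e : ℝ, 0 < e ∧ ∀ r ∈ F, dist z p + e ≤ dist z r := by
      rcases F.eq_empty_or_nonempty with h0 | hne
      · exact ⟨1, one_pos, by rw [h0]; simp⟩
      · obtain ⟨r0, hr0, hmin⟩ := hFf.exists_minimalFor (fun r => dist z r) F hne
        refine ⟨dist z r0 - dist z p, sub_pos.2 (hlt r0 hr0), fun r hr => ?_⟩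
        rcases le_total (dist z r0) (dist z r) with h | h
        · linarith
        · have := hmin hr h
          simp only at this
          linarith
    refine ⟨min e 1 / 4, by positivity, ?_⟩
    intro r hr hrp hrq
    by_cases hrb : r ∈ closedBall z (dist z p + 1)
    · have h1 := h r ⟨⟨hr, hrb⟩, by simp [hrp, hrq]⟩
      have := min_le_left e 1
      linarith
    · rw [mem_closedBall, not_le, dist_comm r z] at hrb
      have := min_le_right e 1
      linarith
  -- the second point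
  obtain ⟨w, hwz, hw, hwd⟩ : ∃ w : ℍ, w ≠ z ∧ dist w z < e ∧ dist w p = dist w q := by
    set α : ℝ := 1 / (p : ℍ).im - 1 / (q : ℍ).im with hα
    set β : ℝ := (p : ℍ).re / (p : ℍ).im - (q : ℍ).re / (q : ℍ).im with hβ
    have hαβ : α ≠ 0 ∨ β ≠ 0 := by
      by_contra hcon
      push Not at hcon
      exact hpq' (V_inj hcon.1 hcon.2)
    have heq := Lf_sub p q _ _ ((dist_eq_iff z p q).1 hdpq)
    rw [← hα, ← hβ] at heq
    -- the curve
    let X : ℝ → ℝ := fun t => z.re + t * α
    let S : ℝ → ℝ := fun t => nz z + t * (2 * β)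
    let γ : ℝ → ℂ := fun t => ⟨X t, Real.sqrt (S t - X t ^ 2)⟩
    have hγc : Continuous γ := by
      exact Complex.equivRealProdCLM.symm.continuous.comp
        (Continuous.prodMk (by fun_prop) (by fun_prop))
    have hγ0 : γ 0 = (z : ℂ) := by
      have h1 := pt_self z
      have h2 : γ 0 = ((pt z.re (nz z) (pos_iff z) : ℍ) : ℂ) := by
        apply Complex.ext
        · change z.re + 0 * α = z.re
          ring
        · change Real.sqrt (nz z + 0 * (2 * β) - (z.re + 0 * α) ^ 2) = Real.sqrt (nz z - z.re ^ 2)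
          congr 1
          ring
      rw [h2, h1]
    have hopen : IsOpen ((fun w : ℍ => (w : ℂ)) '' ball z e) :=
      UpperHalfPlane.isOpenEmbedding_coe.isOpenMap _ isOpen_ball
    have hmem : (fun w : ℍ => (w : ℂ)) '' ball z e ∈ nhds (γ 0) := by
      rw [hγ0]
      exact hopen.mem_nhds ⟨z, mem_ball_self he, rfl⟩
    have hev : ∀ᶠ t in nhds (0 : ℝ), γ t ∈ (fun w : ℍ => (w : ℂ)) '' ball z e ∧
        0 < S t - X t ^ 2 := by
      refine (hγc.continuousAt.eventually hmem).and ?_
      have h1 : Continuous (fun t => S t - X t ^ 2) := by fun_prop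
      refine h1.continuousAt.eventually (lt_mem_nhds ?_)
      have : S 0 - X 0 ^ 2 = nz z - z.re ^ 2 := by
        change nz z + 0 * (2 * β) - (z.re + 0 * α) ^ 2 = _
        ring
      change 0 < S 0 - X 0 ^ 2
      rw [this]
      exact pos_iff z
    have hev' : ∀ᶠ t in nhdsWithin (0 : ℝ) {0}ᶜ, (γ t ∈ (fun w : ℍ => (w : ℂ)) '' ball z e ∧
        0 < S t - X t ^ 2) ∧ t ≠ 0 :=
      (hev.filter_mono nhdsWithin_le_nhds).and self_mem_nhdsWithin
    obtain ⟨t, ⟨⟨w, hwb, hwt⟩, hpos⟩, ht⟩ := hev'.exists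
    have hwre : w.re = X t := congrArg Complex.re hwt
    have hwim : w.im = Real.sqrt (S t - X t ^ 2) := congrArg Complex.im hwt
    have hwnz : nz w = S t := by
      unfold nz
      rw [hwre, hwim, Real.sq_sqrt hpos.le]
      ring
    refine ⟨w, ?_, hwb, ?_⟩
    · rintro rfl
      have h1 : t * α = 0 := by
        have : w.re = w.re + t * α := hwre
        linarith
      have h2 : t * (2 * β) = 0 := by
        have : nz w = nz w + t * (2 * β) := hwnz
        linarith
      rcases hαβ with h | h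
      · exact h ((mul_eq_zero.1 h1).resolve_left ht)
      · have := (mul_eq_zero.1 h2).resolve_left ht
        exact h (by linarith)
    · rw [dist_eq_iff, hwre, hwnz]
      have h3 : Lf p (X t) (S t) - Lf q (X t) (S t) =
          α * S t - 2 * β * X t + (nz (p : ℍ) / (p : ℍ).im - nz (q : ℍ) / (q : ℍ).im) := by
        rw [hα, hβ]
        unfold Lf
        ring
      have h4 : α * S t - 2 * β * X t +
          (nz (p : ℍ) / (p : ℍ).im - nz (q : ℍ) / (q : ℍ).im) = 0 := by
        change α * (nz z + t * (2 * β)) - 2 * β * (z.re + t * α) + _ = 0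
        linear_combination heq
      linarith
  -- membership of the second point
  have hall : ∀ r ∈ P, dist w p ≤ dist w r := by
    intro r hr
    by_cases hrp : r = p
    · rw [hrp]
    · by_cases hrq : r = q
      · rw [hrq, hwd]
      · have h1 := hgap r hr hrp hrq
        have h2 : dist w p ≤ dist w z + dist z p := dist_triangle _ _ _
        have h3 : dist z r ≤ dist z w + dist w r := dist_triangle _ _ _
        rw [dist_comm z w] at h3
        linarith
  have hwp : w ∈ cell P p := hall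
  have hwq : w ∈ cell P q := fun r hr => by rw [← hwd]; exact hall r hr
  refine ⟨hpq, z, w, hwz.symm, ?_⟩
  exact subset_inter (hconv P p z w hzp hwp) (hconv P q z w hzq hwq)

end Pool.Agent.W22.HV
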