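import Pool.Agent.W852.HV.Stms

/-! The tasks HV-COMPL, HV-PART and HV-ARC. -/

set_option autoImplicit false

open MeasureTheory ProbabilityTheory Set Metric
open scoped UpperHalfPlane ENNReal

namespace Pool.Agent.W22.HV

open HypVoronoi

/-! ### complements of countable sets -/

/-- a homeomorphism from the plane -/
noncomputable def FF (w : ℂ) : ℍ := ⟨⟨w.re, Real.exp w.im⟩, Real.exp_pos _⟩

lemma FF_cont : Continuous FF := by
  have h1 : Continuous (fun w : ℂ => (⟨w.re, Real.exp w.im⟩ : ℂ)) :=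
    Complex.equivRealProdCLM.symm.continuous.comp
      (Continuous.prodMk Complex.continuous_re (Real.continuous_exp.comp Complex.continuous_im))
  exact h1.upperHalfPlaneMk _

lemma FF_inj : Function.Injective FF := by
  intro v w h
  have h1 : v.re = w.re := congrArg UpperHalfPlane.re h
  have h2 : Real.exp v.im = Real.exp w.im := congrArg UpperHalfPlane.im h
  exact Complex.ext h1 (Real.exp_injective h2)

lemma FF_surj : Function.Surjective FF := by
  intro z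
  refine ⟨⟨z.re, Real.log z.im⟩, ?_⟩
  apply UpperHalfPlane.ext
  apply Complex.ext
  · rfl
  · exact Real.exp_log z.im_pos

theorem t_compl : TaskCompl := by
  intro T hT
  have h1 : (FF ⁻¹' T).Countable := hT.preimage_of_injOn FF_inj.injOn
  have h2 : IsConnected (FF ⁻¹' T)ᶜ :=
    h1.isConnected_compl_of_one_lt_rank (by rw [Complex.rank_real_complex]; norm_num)
  have h3 : Tᶜ = FF '' (FF ⁻¹' T)ᶜ := by
    rw [← preimage_compl, image_preimage_eq _ FF_surj]
  rw [h3]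
  exact h2.isPreconnected.image _ FF_cont.continuousOn

/-! ### partitions -/

theorem t_part : TaskPart := by
  intro S hS hSb ε hε
  have hc : IsCompact (closure S) := hSb.isCompact_closure
  obtain ⟨t, -, htf, ht⟩ := finite_cover_balls_of_compact hc (half_pos hε)
  have htS : S ⊆ ⋃ x ∈ t, ball x (ε / 2) := subset_closure.trans ht
  have : Fintype t := htf.fintype
  let n := Fintype.card t
  let y : Fin n → ℍ := fun i => ((Fintype.equivFin t).symm i : t)
  have hy : ∀ x ∈ S, ∃ i, x ∈ ball (y i) (ε / 2) := by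
    intro x hx
    obtain ⟨c, hc1, hc2⟩ := mem_iUnion₂.1 (htS hx)
    refine ⟨Fintype.equivFin t ⟨c, hc1⟩, ?_⟩
    change x ∈ ball (((Fintype.equivFin t).symm (Fintype.equivFin t ⟨c, hc1⟩) : t) : ℍ) (ε / 2)
    rw [Equiv.symm_apply_apply]
    exact hc2
  refine ⟨n, fun i => (S ∩ ball (y i) (ε / 2)) \ ⋃ j, ⋃ (_ : j < i), ball (y j) (ε / 2),
    ?_, ?_, ?_, ?_⟩
  · intro i
    refine (hS.inter measurableSet_ball).diff ?_
    exact MeasurableSet.iUnion fun j => MeasurableSet.iUnion fun _ => measurableSet_ball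
  · intro i j hij
    rw [Set.disjoint_left]
    rintro x ⟨⟨-, hxi⟩, hxi'⟩ ⟨⟨-, hxj⟩, hxj'⟩
    rcases lt_or_gt_of_ne hij with h | h
    · exact hxj' (mem_iUnion₂.2 ⟨i, h, hxi⟩)
    · exact hxi' (mem_iUnion₂.2 ⟨j, h, hxj⟩)
  · apply Subset.antisymm
    · intro x hx
      obtain ⟨i, ⟨hxS, -⟩, -⟩ := mem_iUnion.1 hx
      exact hxS
    · intro x hx
      obtain ⟨i0, hi0⟩ := hy x hx
      obtain ⟨i, hi, hmin⟩ := WellFounded.has_min (wellFounded_lt : WellFounded (α := Fin n) (· < ·))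
        {i | x ∈ ball (y i) (ε / 2)} ⟨i0, hi0⟩
      refine mem_iUnion.2 ⟨i, ⟨hx, hi⟩, ?_⟩
      intro h
      obtain ⟨j, hj, hxj⟩ := mem_iUnion₂.1 h
      exact hmin j hxj hj
  · rintro i x ⟨⟨-, hx⟩, -⟩ z ⟨⟨-, hz⟩, -⟩
    have h1 := dist_triangle_right x z (y i)
    rw [mem_ball] at hx hz
    linarith

/-! ### circles -/

lemma dist_iff {z z0 : ℍ} {r : ℝ} (hr : 0 < r) : dist z z0 = r ↔
    (z.re - z0.re) ^ 2 + (z.im - z0.im * Real.cosh r) ^ 2 = (z0.im * Real.sinh r) ^ 2 := by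
  have h0 : 0 ≤ z0.im * Real.sinh r := mul_nonneg z0.im_pos.le (Real.sinh_nonneg_iff.2 hr.le)
  rw [UpperHalfPlane.dist_eq_iff_dist_coe_center_eq, ← sq_eq_sq₀ dist_nonneg h0, Complex.dist_eq,
    ← Complex.normSq_eq_norm_sq, Complex.normSq_apply]
  have h1 : ((z : ℂ) - (z0.center r : ℂ)).re = z.re - z0.re := rfl
  have h2 : ((z : ℂ) - (z0.center r : ℂ)).im = z.im - z0.im * Real.cosh r := rfl
  rw [h1, h2, ← pow_two, ← pow_two]

/-- half circles -/
noncomputable def arc (z0 : ℍ) (r σ : ℝ) (h : ∀ θ : ℝ, 0 < z0.im * (Real.cosh r + Real.sinh r * Real.sin θ))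
    (θ : ℝ) : ℍ :=
  ⟨⟨z0.re + σ * (z0.im * Real.sinh r * Real.cos θ),
    z0.im * (Real.cosh r + Real.sinh r * Real.sin θ)⟩, h θ⟩

lemma arc_pos (z0 : ℍ) {r : ℝ} (hr : 0 < r) (θ : ℝ) :
    0 < z0.im * (Real.cosh r + Real.sinh r * Real.sin θ) := by
  have h1 : Real.sinh r < Real.cosh r := Real.sinh_lt_cosh r
  have h2 : 0 < Real.sinh r := Real.sinh_pos_iff.2 hr
  have h3 := Real.neg_one_le_sin θ
  refine mul_pos z0.im_pos ?_
  nlinarith

lemma arc_cont (z0 : ℍ) {r : ℝ} (hr : 0 < r) (σ : ℝ) : Continuous (arc z0 r σ (arc_pos z0 hr)) := by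
  have h1 : Continuous (fun θ : ℝ => (⟨z0.re + σ * (z0.im * Real.sinh r * Real.cos θ),
      z0.im * (Real.cosh r + Real.sinh r * Real.sin θ)⟩ : ℂ)) :=
    Complex.equivRealProdCLM.symm.continuous.comp
      (Continuous.prodMk (by fun_prop) (by fun_prop))
  exact h1.upperHalfPlaneMk _

lemma arc_dist (z0 : ℍ) {r : ℝ} (hr : 0 < r) {σ : ℝ} (hσ : σ ^ 2 = 1) (θ : ℝ) :
    dist (arc z0 r σ (arc_pos z0 hr) θ) z0 = r := by
  rw [dist_iff hr]
  have h1 : (arc z0 r σ (arc_pos z0 hr) θ).re =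
    z0.re + σ * (z0.im * Real.sinh r * Real.cos θ) := rfl
  have h2 : (arc z0 r σ (arc_pos z0 hr) θ).im =
    z0.im * (Real.cosh r + Real.sinh r * Real.sin θ) := rfl
  rw [h1, h2]
  have h3 := Real.sin_sq_add_cos_sq θ
  linear_combination (z0.im * Real.sinh r * Real.cos θ) ^ 2 * hσ +
    (z0.im * Real.sinh r) ^ 2 * h3

lemma half_eq (z0 : ℍ) {r : ℝ} (hr : 0 < r) {σ : ℝ} (hσ : σ ^ 2 = 1) :
    {z : ℍ | dist z z0 = r ∧ 0 ≤ σ * (z.re - z0.re)} =
      arc z0 r σ (arc_pos z0 hr) '' Icc (-(Real.pi / 2)) (Real.pi / 2) := by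
  have hs : 0 < z0.im * Real.sinh r := mul_pos z0.im_pos (Real.sinh_pos_iff.2 hr)
  have hs' : 0 < Real.sinh r := Real.sinh_pos_iff.2 hr
  apply Subset.antisymm
  · rintro z ⟨hz, hre⟩
    rw [dist_iff hr] at hz
    set u : ℝ := (z.im - z0.im * Real.cosh r) / (z0.im * Real.sinh r) with hu
    have hu2 : u ^ 2 ≤ 1 := by
      rw [hu, div_pow, div_le_one (by positivity), ← hz]
      nlinarith [sq_nonneg (z.re - z0.re)]
    have hu1 : -1 ≤ u ∧ u ≤ 1 := abs_le.1 (by
      rw [← sq_le_one_iff_abs_le_one]; exact hu2)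
    refine ⟨Real.arcsin u, Real.arcsin_mem_Icc u, ?_⟩
    have hsin : Real.sin (Real.arcsin u) = u := Real.sin_arcsin hu1.1 hu1.2
    have hcos : Real.cos (Real.arcsin u) = σ * (z.re - z0.re) / (z0.im * Real.sinh r) := by
      rw [Real.cos_arcsin]
      rw [Real.sqrt_eq_iff_mul_self_eq (by linarith) (div_nonneg hre hs.le)]
      rw [hu]
      field_simp
      linear_combination -(z.re - z0.re) ^ 2 * hσ - hz
    apply UpperHalfPlane.ext
    apply Complex.ext
    · change z0.re + σ * (z0.im * Real.sinh r * Real.cos (Real.arcsin u)) = z.re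
      rw [hcos, mul_div_cancel₀ _ hs.ne']
      linear_combination (z.re - z0.re) * hσ
    · change z0.im * (Real.cosh r + Real.sinh r * Real.sin (Real.arcsin u)) = z.im
      rw [hsin, hu]
      have := z0.im_pos
      field_simp
      ring
  · rintro _ ⟨θ, hθ, rfl⟩
    refine ⟨arc_dist z0 hr hσ θ, ?_⟩
    have h1 : (arc z0 r σ (arc_pos z0 hr) θ).re =
      z0.re + σ * (z0.im * Real.sinh r * Real.cos θ) := rfl
    rw [h1]
    have h2 : 0 ≤ Real.cos θ := Real.cos_nonneg_of_mem_Icc hθ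
    have h3 : σ * (z0.re + σ * (z0.im * Real.sinh r * Real.cos θ) - z0.re) =
      σ ^ 2 * (z0.im * Real.sinh r * Real.cos θ) := by ring
    rw [h3, hσ, one_mul]
    exact mul_nonneg hs.le h2

theorem t_arc : TaskArc := by
  intro z0 r hr
  have key : ∀ σ : ℝ, σ ^ 2 = 1 →
      IsPreconnected {z : ℍ | dist z z0 = r ∧ 0 ≤ σ * (z.re - z0.re)} := by
    intro σ hσ
    rw [half_eq z0 hr hσ]
    exact isPreconnected_Icc.image _ (arc_cont z0 hr σ).continuousOn
  have h1 := key 1 (by norm_num)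
  have h2 := key (-1) (by norm_num)
  have e1 : {z : ℍ | dist z z0 = r ∧ 0 ≤ (1 : ℝ) * (z.re - z0.re)} =
      {z : ℍ | dist z z0 = r ∧ z0.re ≤ z.re} := by
    ext z
    simp
  have e2 : {z : ℍ | dist z z0 = r ∧ 0 ≤ (-1 : ℝ) * (z.re - z0.re)} =
      {z : ℍ | dist z z0 = r ∧ z.re ≤ z0.re} := by
    ext z
    simp
  rw [e1] at h1
  rw [e2] at h2
  refine ⟨h1, h2, ?_⟩
  have e3 : {z : ℍ | dist z z0 = r} = {z : ℍ | dist z z0 = r ∧ z0.re ≤ z.re} ∪
      {z : ℍ | dist z z0 = r ∧ z.re ≤ z0.re} := by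
    ext z
    constructor
    · intro hz
      rcases le_total z0.re z.re with h | h
      · exact Or.inl ⟨hz, h⟩
      · exact Or.inr ⟨hz, h⟩
    · rintro (⟨hz, -⟩ | ⟨hz, -⟩)
      · exact hz
      · exact hz
  rw [e3]
  have htop : (arc z0 r 1 (arc_pos z0 hr) (Real.pi / 2)).re = z0.re := by
    change z0.re + 1 * (z0.im * Real.sinh r * Real.cos (Real.pi / 2)) = z0.re
    rw [Real.cos_pi_div_two]
    ring
  exact IsPreconnected.union (arc z0 r 1 (arc_pos z0 hr) (Real.pi / 2))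
    ⟨arc_dist z0 hr (by norm_num) _, htop.ge⟩ ⟨arc_dist z0 hr (by norm_num) _, htop.le⟩ h1 h2

end Pool.Agent.W22.HV
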